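import Mathlib

/-!
Abstract perturbation lemmas for semi-Fredholm operators.
-/

set_option autoImplicit false

open Filter Topology

namespace Pool.Agent.P.MP_d583b7_an

/-- Gliding hump lemma.  If `T` is bounded below on `M`, the coordinates `φ k` have an
`ℓ¹` upper estimate and `S` is dominated by the supremum of the coordinates, then `T + S` is bounded
below on the vectors of `M` whose first `N` coordinates vanish, for some `N`. -/
theorem hump {Z W : Type*} [NormedAddCommGroup Z] [NormedSpace ℂ Z] [NormedAddCommGroup W]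
    [NormedSpace ℂ W] (T S : Z →L[ℂ] W) (φ : ℕ → Z →L[ℂ] ℂ) (D : ℝ) (hD : 0 < D)
    (h1 : ∀ z n, ∑ k ∈ Finset.range n, ‖φ k z‖ ≤ ‖z‖)
    (hS : ∀ z b, 0 ≤ b → (∀ k, ‖φ k z‖ ≤ b) → ‖S z‖ ≤ D * b)
    (M : Submodule ℂ Z) (c : ℝ) (hc : 0 < c) (hT : ∀ z ∈ M, c * ‖z‖ ≤ ‖T z‖) :
    ∃ (N : ℕ) (c' : ℝ), 0 < c' ∧
      ∀ z ∈ M, (∀ k < N, φ k z = 0) → c' * ‖z‖ ≤ ‖(T + S) z‖ := by
  by_contra hcon
  push Not at hcon
  set a : ℝ := c / (8 * D) with ha
  have ha0 : 0 < a := by positivity
  set ε : ℝ := min (c / 2) (c * a / 2) with hε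
  have hε0 : 0 < ε := lt_min (by positivity) (by positivity)
  have hcoord : ∀ z k, ‖φ k z‖ ≤ ‖z‖ := by
    intro z k
    refine le_trans ?_ (h1 z (k + 1))
    rw [Finset.sum_range_succ]
    have : 0 ≤ ∑ i ∈ Finset.range k, ‖φ i z‖ := Finset.sum_nonneg fun _ _ => norm_nonneg _
    linarith
  have htend : ∀ z, Tendsto (fun k => ‖φ k z‖) atTop (𝓝 0) := by
    intro z
    have : Summable (fun k => ‖φ k z‖) :=
      summable_of_sum_range_le (fun _ => norm_nonneg _) (h1 z)
    exact this.tendsto_atTop_zero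
  -- normalised bad vectors
  have hbad : ∀ N : ℕ, ∃ w ∈ M, (∀ k < N, φ k w = 0) ∧ ‖w‖ = 1 ∧ ‖(T + S) w‖ ≤ ε := by
    intro N
    obtain ⟨z, hzM, hz0, hz⟩ := hcon N ε hε0
    have hzne : z ≠ 0 := by
      rintro rfl
      simp at hz
    have hzn : 0 < ‖z‖ := norm_pos_iff.mpr hzne
    refine ⟨((‖z‖⁻¹ : ℝ) : ℂ) • z, M.smul_mem _ hzM, ?_, ?_, ?_⟩
    · intro k hk
      rw [map_smul, hz0 k hk, smul_zero]
    · rw [norm_smul, Complex.norm_real, norm_inv, norm_norm, inv_mul_cancel₀ hzn.ne']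
    · rw [map_smul, norm_smul, Complex.norm_real, norm_inv, norm_norm, inv_mul_le_iff₀ hzn]
      linarith
  have key : ∀ m : ℕ, ∃ z ∈ M, ‖(T + S) z‖ ≤ m * ε ∧ (∀ k, ‖φ k z‖ ≤ 2) ∧
      ∃ n, m * a ≤ ∑ k ∈ Finset.range n, ‖φ k z‖ := by
    intro m
    induction m with
    | zero => exact ⟨0, M.zero_mem, by simp, by simp, 0, by simp⟩
    | succ m ih =>
      obtain ⟨z, hzM, hzT, hz2, n, hn⟩ := ih
      have hη : 0 < min a 1 := lt_min ha0 one_pos
      obtain ⟨N₀, hN₀⟩ := eventually_atTop.mp ((htend z).eventually (gt_mem_nhds hη))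
      obtain ⟨w, hwM, hw0, hw1, hwT⟩ := hbad (max n N₀)
      have hSw : c / 2 ≤ ‖S w‖ := by
        have h2 := hT w hwM
        have h3 : T w = (T + S) w - S w := by simp
        have h4 : ‖T w‖ ≤ ‖(T + S) w‖ + ‖S w‖ := by rw [h3]; exact norm_sub_le _ _
        have h5 : ε ≤ c / 2 := min_le_left _ _
        rw [hw1] at h2
        linarith
      obtain ⟨k₀, hk₀⟩ : ∃ k₀, 2 * a < ‖φ k₀ w‖ := by
        by_contra hh
        push Not at hh
        have h6 := hS w (2 * a) (by positivity) hh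
        have h7 : D * (2 * a) = c / 4 := by rw [ha]; field_simp; ring
        linarith
      have hk₀N : max n N₀ ≤ k₀ := by
        by_contra hh
        push Not at hh
        rw [hw0 k₀ hh, norm_zero] at hk₀
        linarith
      refine ⟨z + w, M.add_mem hzM hwM, ?_, ?_, k₀ + 1, ?_⟩
      · rw [map_add]
        refine le_trans (norm_add_le _ _) ?_
        rw [Nat.cast_succ]
        linarith
      · intro k
        rw [map_add]
        by_cases hk : k < max n N₀
        · rw [hw0 k hk, add_zero]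
          exact hz2 k
        · push Not at hk
          have h8 := hN₀ k (le_trans (le_max_right _ _) hk)
          have h9 := hcoord w k
          have h10 : min a 1 ≤ 1 := min_le_right _ _
          refine le_trans (norm_add_le _ _) ?_
          linarith
      · rw [Finset.sum_range_succ]
        have h11 : ∑ k ∈ Finset.range n, ‖φ k z‖ ≤ ∑ k ∈ Finset.range k₀, ‖φ k (z + w)‖ := by
          have e1 : ∑ k ∈ Finset.range n, ‖φ k z‖ = ∑ k ∈ Finset.range n, ‖φ k (z + w)‖ := by
            refine Finset.sum_congr rfl fun k hk => ?_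
            rw [map_add, hw0 k (lt_of_lt_of_le (Finset.mem_range.mp hk) (le_max_left _ _)),
              add_zero]
          rw [e1]
          refine Finset.sum_le_sum_of_subset_of_nonneg ?_ fun _ _ _ => norm_nonneg _
          exact Finset.range_mono (le_trans (le_max_left _ _) hk₀N)
        have h12 : a ≤ ‖φ k₀ (z + w)‖ := by
          have h8 := hN₀ k₀ (le_trans (le_max_right _ _) hk₀N)
          have h10 : min a 1 ≤ a := min_le_left _ _
          have h13 : φ k₀ w = φ k₀ (z + w) - φ k₀ z := by simp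
          have h14 : ‖φ k₀ w‖ ≤ ‖φ k₀ (z + w)‖ + ‖φ k₀ z‖ := by
            rw [h13]; exact norm_sub_le _ _
          linarith
        push_cast
        linarith
  obtain ⟨m, hm⟩ := exists_nat_gt (4 * D / (c * a))
  obtain ⟨z, hzM, hzT, hz2, n, hn⟩ := key m
  have h15 := hT z hzM
  have h16 := hS z 2 (by norm_num) hz2
  have h3 : T z = (T + S) z - S z := by simp
  have h4 : ‖T z‖ ≤ ‖(T + S) z‖ + ‖S z‖ := by rw [h3]; exact norm_sub_le _ _
  have h17 : m * a ≤ ‖z‖ := le_trans hn (h1 z n)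
  have h18 : (m : ℝ) * ε ≤ m * (c * a / 2) :=
    mul_le_mul_of_nonneg_left (min_le_right _ _) (Nat.cast_nonneg m)
  have h19 : c * (m * a) ≤ c * ‖z‖ := mul_le_mul_of_nonneg_left h17 hc.le
  rw [div_lt_iff₀ (by positivity)] at hm
  nlinarith

section Banach

variable {E F : Type*} [NormedAddCommGroup E] [NormedSpace ℂ E] [NormedAddCommGroup F]
  [NormedSpace ℂ F]

/-- An operator with closed range and finite-dimensional kernel is bounded below on a closed
subspace of finite codimension. -/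
theorem bddBelow_of_upper [CompleteSpace E] [CompleteSpace F] (T : E →L[ℂ] F)
    (hr : IsClosed (T.range : Set F)) (hk : FiniteDimensional ℂ T.ker) :
    ∃ (M : Submodule ℂ E) (c : ℝ), IsClosed (M : Set E) ∧ M.CoFG ∧ 0 < c ∧
      ∀ z ∈ M, c * ‖z‖ ≤ ‖T z‖ := by
  obtain ⟨P, hP⟩ := Submodule.ClosedComplemented.of_finiteDimensional T.ker
  have : CompleteSpace T.range := hr.completeSpace_coe
  obtain ⟨C, hC, hpre⟩ := (T.rangeRestrict).exists_preimage_norm_le (by
    rintro ⟨y, x, rfl⟩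
    exact ⟨x, rfl⟩)
  let Q : E →L[ℂ] E := ContinuousLinearMap.id ℂ E - T.ker.subtypeL ∘L P
  refine ⟨P.ker, (C * (‖Q‖ + 1))⁻¹, P.isClosed_ker, Submodule.CoFG.ker _, by positivity, ?_⟩
  intro z hz
  obtain ⟨x, hx, hxn⟩ := hpre (T.rangeRestrict z)
  have hTx : T x = T z := congrArg Subtype.val hx
  have hd : z - x ∈ T.ker := by simp [hTx]
  have hQd : Q (z - x) = 0 := by
    have := hP ⟨z - x, hd⟩
    simp only [Q, sub_apply, ContinuousLinearMap.id_apply,
      ContinuousLinearMap.comp_apply]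
    rw [this]
    simp
  have hQz : Q z = z := by
    have : P z = 0 := hz
    simp [Q, this]
  have hzx : z = Q x := by
    rw [map_sub, hQz, sub_eq_zero] at hQd
    exact hQd
  have h1 : ‖z‖ ≤ ‖Q‖ * ‖x‖ := by
    conv_lhs => rw [hzx]
    exact Q.le_opNorm x
  have h2 : ‖x‖ ≤ C * ‖T z‖ := hxn
  rw [inv_mul_le_iff₀ (by positivity)]
  have h3 : ‖Q‖ * ‖x‖ ≤ (‖Q‖ + 1) * (C * ‖T z‖) := by gcongr; linarith
  nlinarith

/-- Converse of `bddBelow_of_upper`. -/
theorem upper_of_bddBelow [CompleteSpace E] (T : E →L[ℂ] F) (M : Submodule ℂ E) (c : ℝ)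
    (hM : IsClosed (M : Set E)) (hco : M.CoFG) (hc : 0 < c) (h : ∀ z ∈ M, c * ‖z‖ ≤ ‖T z‖) :
    IsClosed (T.range : Set F) ∧ FiniteDimensional ℂ T.ker := by
  constructor
  · have : CompleteSpace M := hM.completeSpace_coe
    have hanti : AntilipschitzWith (Real.toNNReal c⁻¹) (T ∘L M.subtypeL) := by
      refine (T ∘L M.subtypeL).antilipschitz_of_bound ?_
      intro x
      have := h x x.2
      rw [Real.coe_toNNReal _ (by positivity), ← div_eq_inv_mul, le_div_iff₀ hc]
      simpa [mul_comm] using this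
    have hcl := hanti.isClosed_range (T ∘L M.subtypeL).uniformContinuous
    refine LinearMap.isClosed_range_of_isClosed_map_of_finiteDimensional_quotient
      (f := (T : E →ₗ[ℂ] F)) (s := M) ?_
    convert hcl using 1
    ext y
    simp
  · refine Module.Finite.iff_fg.mpr (Submodule.CoFG.fg_of_disjoint (T := M) ?_ hco)
    rw [Submodule.disjoint_def]
    intro x hx hxM
    have h1 := h x hxM
    have h2 : T x = 0 := hx
    rw [h2, norm_zero] at h1
    have : ‖x‖ ≤ 0 := by
      by_contra hh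
      push Not at hh
      have := mul_pos hc hh
      linarith
    exact norm_le_zero_iff.mp this

/-- An operator whose adjoint is bounded below is onto. -/
theorem surjective_of_adjoint_bddBelow [CompleteSpace E] (U : E →L[ℂ] F) (C : ℝ) (hC : 0 < C)
    (h : ∀ g : StrongDual ℂ F, ‖g‖ ≤ C * ‖g ∘L U‖) : Function.Surjective U := by
  have approx : ∀ y : F, ∃ x, ‖y - U x‖ ≤ 1 / 2 * ‖y‖ ∧ ‖x‖ ≤ C * ‖y‖ := by
    intro y
    rcases eq_or_ne y 0 with rfl | hy
    · exact ⟨0, by simp⟩
    have hy0 : 0 < ‖y‖ := norm_pos_iff.mpr hy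
    have hmem : y ∈ closure (U '' Metric.closedBall 0 (C * ‖y‖)) := by
      by_contra hn
      have hconv : Convex ℝ (closure (U '' Metric.closedBall 0 (C * ‖y‖))) :=
        ((convex_closedBall (0 : E) _).is_linear_image
          ((U.restrictScalars ℝ : E →L[ℝ] F) : E →ₗ[ℝ] F).isLinear).closure
      obtain ⟨g, u, hg, hu⟩ :=
        RCLike.geometric_hahn_banach_closed_point (𝕜 := ℂ) hconv isClosed_closure hn
      have hu0 : 0 < u := by
        have := hg 0 (subset_closure ⟨0, by simp; positivity, by simp⟩)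
        simpa using this
      have hgU : ‖g ∘L U‖ ≤ u / (C * ‖y‖) := by
        refine ContinuousLinearMap.opNorm_le_of_unit_norm (by positivity) ?_
        intro x hx
        obtain ⟨s, hs1, hs⟩ : ∃ s : ℂ, ‖s‖ = 1 ∧ s * g (U x) = ‖g (U x)‖ := by
          obtain ⟨s, hs1, hs⟩ := Complex.exists_norm_eq_mul_self (g (U x))
          exact ⟨s, hs1, hs.symm⟩
        have hmem' : U ((((C * ‖y‖ : ℝ) : ℂ) * s) • x) ∈
            closure (U '' Metric.closedBall 0 (C * ‖y‖)) := by
          refine subset_closure ⟨_, ?_, rfl⟩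
          rw [mem_closedBall_zero_iff, norm_smul, norm_mul, hs1, hx, Complex.norm_real,
            Real.norm_of_nonneg (by positivity)]
          simp
        have h2 := hg _ hmem'
        rw [map_smul, map_smul, smul_eq_mul, mul_assoc, hs, ← Complex.ofReal_mul] at h2
        rw [le_div_iff₀ (by positivity), mul_comm]
        simpa using h2.le
      have h3 : ‖g‖ ≤ u / ‖y‖ := by
        refine le_trans (h g) ?_
        calc C * ‖g ∘L U‖ ≤ C * (u / (C * ‖y‖)) := by gcongr
          _ = u / ‖y‖ := by field_simp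
      have h4 : RCLike.re (g y) ≤ ‖g‖ * ‖y‖ := le_trans (RCLike.re_le_norm _) (g.le_opNorm y)
      rw [le_div_iff₀ hy0] at h3
      linarith
    obtain ⟨b, ⟨x, hx, rfl⟩, hb⟩ := Metric.mem_closure_iff.mp hmem (1 / 2 * ‖y‖) (by positivity)
    refine ⟨x, ?_, mem_closedBall_zero_iff.mp hx⟩
    rw [← dist_eq_norm]
    exact hb.le
  choose g hg using approx
  let hh : F → F := fun y => y - U (g y)
  intro y
  have hnle : ∀ n : ℕ, ‖hh^[n] y‖ ≤ (1 / 2) ^ n * ‖y‖ := by
    intro n
    induction n with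
    | zero => simp
    | succ n IH =>
      rw [Function.iterate_succ_apply']
      refine le_trans (hg _).1 ?_
      rw [pow_succ', mul_assoc]
      gcongr
  let u : ℕ → E := fun n => g (hh^[n] y)
  have ule : ∀ n, ‖u n‖ ≤ (1 / 2) ^ n * (C * ‖y‖) := fun n => by
    refine le_trans (hg _).2 ?_
    calc
      C * ‖hh^[n] y‖ ≤ C * ((1 / 2) ^ n * ‖y‖) := by gcongr; exact hnle n
      _ = (1 / 2) ^ n * (C * ‖y‖) := by ring
  have sNu : Summable fun n => ‖u n‖ := by
    refine .of_nonneg_of_le (fun n => norm_nonneg _) ule ?_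
    exact Summable.mul_right _ (summable_geometric_of_lt_one (by simp) (by norm_num))
  have su : Summable u := sNu.of_norm
  have fsumeq : ∀ n : ℕ, U (∑ i ∈ Finset.range n, u i) = y - hh^[n] y := by
    intro n
    induction n with
    | zero => simp
    | succ n IH =>
      rw [Finset.sum_range_succ, map_add, IH, Function.iterate_succ_apply', sub_add]
  have L₁ : Tendsto (fun n => U (∑ i ∈ Finset.range n, u i)) atTop (𝓝 (U (tsum u))) :=
    (U.continuous.tendsto _).comp su.hasSum.tendsto_sum_nat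
  simp only [fsumeq] at L₁
  have L₂ : Tendsto (fun n => y - hh^[n] y) atTop (𝓝 (y - 0)) := by
    refine tendsto_const_nhds.sub ?_
    rw [tendsto_iff_norm_sub_tendsto_zero]
    simp only [sub_zero]
    refine squeeze_zero (fun _ => norm_nonneg _) hnle ?_
    rw [← zero_mul ‖y‖]
    refine (tendsto_pow_atTop_nhds_zero_of_lt_one ?_ ?_).mul tendsto_const_nhds <;> norm_num
  exact ⟨tsum u, by simpa using tendsto_nhds_unique L₁ L₂⟩

/-- If the range of `T` has finite codimension then the adjoint of `T` is bounded below on the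
annihilator of a finite-dimensional subspace. -/
theorem adjoint_bddBelow_of_lower [CompleteSpace E] [CompleteSpace F] (T : E →L[ℂ] F)
    (hk : FiniteDimensional ℂ (F ⧸ T.range)) :
    ∃ (G : Submodule ℂ F) (c : ℝ), FiniteDimensional ℂ G ∧ 0 < c ∧
      ∀ g : StrongDual ℂ F, (∀ y ∈ G, g y = 0) → c * ‖g‖ ≤ ‖g ∘L T‖ := by
  obtain ⟨G, hG⟩ := Submodule.exists_isCompl T.range
  have hGf : FiniteDimensional ℂ G :=
    Module.Finite.iff_fg.mpr (Submodule.CoFG.fg_of_isCompl hG hk)
  have : CompleteSpace G := FiniteDimensional.complete ℂ G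
  obtain ⟨C, hC, hpre⟩ := (T.coprod G.subtypeL).exists_preimage_norm_le (by
    intro y
    have : y ∈ T.range ⊔ G := by rw [hG.sup_eq_top]; trivial
    obtain ⟨_, ⟨x, rfl⟩, b, hb, rfl⟩ := Submodule.mem_sup.mp this
    exact ⟨(x, ⟨b, hb⟩), by simp⟩)
  refine ⟨G, C⁻¹, hGf, by positivity, fun g hg => ?_⟩
  rw [inv_mul_le_iff₀ hC]
  refine ContinuousLinearMap.opNorm_le_bound _ (by positivity) fun y => ?_
  obtain ⟨⟨x, b⟩, hx, hxn⟩ := hpre y
  have e1 : g y = (g ∘L T) x := by
    rw [← hx]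
    simp [hg b b.2]
  rw [e1]
  have h1 : ‖x‖ ≤ C * ‖y‖ := le_trans (norm_fst_le (x, b)) hxn
  calc ‖(g ∘L T) x‖ ≤ ‖g ∘L T‖ * ‖x‖ := (g ∘L T).le_opNorm x
    _ ≤ ‖g ∘L T‖ * (C * ‖y‖) := by gcongr
    _ = C * ‖g ∘L T‖ * ‖y‖ := by ring

/-- A bounded operator between Banach spaces whose range has finite codimension has closed
range. -/
theorem isClosed_range_of_cofinite [CompleteSpace E] [CompleteSpace F] (T : E →L[ℂ] F)
    (hk : FiniteDimensional ℂ (F ⧸ T.range)) : IsClosed (T.range : Set F) := by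
  obtain ⟨G, hG⟩ := Submodule.exists_isCompl T.range
  have hGf : FiniteDimensional ℂ G :=
    Module.Finite.iff_fg.mpr (Submodule.CoFG.fg_of_isCompl hG hk)
  have : CompleteSpace G := FiniteDimensional.complete ℂ G
  have hq := (T.coprod G.subtypeL).isQuotientMap (by
    intro y
    have : y ∈ T.range ⊔ G := by rw [hG.sup_eq_top]; trivial
    obtain ⟨_, ⟨x, rfl⟩, b, hb, rfl⟩ := Submodule.mem_sup.mp this
    exact ⟨(x, ⟨b, hb⟩), by simp⟩)
  rw [← hq.isClosed_preimage]
  have : (T.coprod G.subtypeL) ⁻¹' (T.range : Set F) = {p : E × G | p.2 = 0} := by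
    ext ⟨x, b⟩
    simp only [Set.mem_preimage, ContinuousLinearMap.coprod_apply, SetLike.mem_coe,
      Set.mem_ofPred_eq]
    constructor
    · intro hh
      have hb : (b : F) ∈ T.range := by
        have := T.range.sub_mem hh (show T x ∈ T.range from ⟨x, rfl⟩)
        simpa using this
      have := (Submodule.disjoint_def.mp hG.disjoint) b hb b.2
      exact Subtype.ext this
    · rintro rfl
      exact ⟨x, by simp⟩
  rw [this]
  exact isClosed_eq continuous_snd continuous_const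

/-- Converse of `adjoint_bddBelow_of_lower`. -/
theorem lower_of_adjoint_bddBelow [CompleteSpace E] (T : E →L[ℂ] F) (G : Submodule ℂ F) (c : ℝ)
    (hG : FiniteDimensional ℂ G) (hc : 0 < c)
    (h : ∀ g : StrongDual ℂ F, (∀ y ∈ G, g y = 0) → c * ‖g‖ ≤ ‖g ∘L T‖) :
    FiniteDimensional ℂ (F ⧸ T.range) := by
  have : IsClosed (G : Set F) := G.closed_of_finiteDimensional
  have hs : Function.Surjective (G.mkQL ∘L T) := by
    refine surjective_of_adjoint_bddBelow _ c⁻¹ (by positivity) fun g => ?_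
    have h1 := h (g ∘L G.mkQL) (by
      intro y hy
      have : G.mkQL y = 0 := (Submodule.Quotient.mk_eq_zero G).mpr hy
      simp only [ContinuousLinearMap.comp_apply, this, map_zero])
    have h2 : ‖g‖ ≤ ‖g ∘L G.mkQL‖ := by
      refine ContinuousLinearMap.opNorm_le_bound _ (norm_nonneg _) fun q => ?_
      refine le_of_forall_pos_le_add fun ε hε => ?_
      obtain ⟨y, hy, hyn⟩ := Submodule.Quotient.norm_mk_lt q
        (show 0 < ε / (‖g ∘L G.mkQL‖ + 1) by positivity)
      have e1 : g q = (g ∘L G.mkQL) y := by rw [← hy]; rfl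
      rw [e1]
      have e2 : ‖g ∘L G.mkQL‖ * (ε / (‖g ∘L G.mkQL‖ + 1)) ≤ ε := by
        rw [← mul_div_assoc, div_le_iff₀ (by positivity)]
        nlinarith [norm_nonneg (g ∘L G.mkQL)]
      calc ‖(g ∘L G.mkQL) y‖ ≤ ‖g ∘L G.mkQL‖ * ‖y‖ := (g ∘L G.mkQL).le_opNorm y
        _ ≤ ‖g ∘L G.mkQL‖ * (‖q‖ + ε / (‖g ∘L G.mkQL‖ + 1)) := by gcongr
        _ ≤ ‖g ∘L G.mkQL‖ * ‖q‖ + ε := by rw [mul_add]; linarith
    rw [← div_eq_inv_mul, le_div_iff₀ hc]
    have e3 : g ∘L (G.mkQL ∘L T) = (g ∘L G.mkQL) ∘L T := rfl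
    rw [e3]
    nlinarith
  refine Submodule.FG.cofg_of_codisjoint (S := G) ?_ (Module.Finite.iff_fg.mp hG)
  rw [codisjoint_iff, eq_top_iff]
  intro y _
  obtain ⟨x, hx⟩ := hs (G.mkQL y)
  have : y - T x ∈ G := by
    rw [← Submodule.Quotient.eq]
    exact hx.symm
  exact Submodule.mem_sup.mpr ⟨y - T x, this, T x, ⟨x, rfl⟩, by simp⟩

end Banach

end Pool.Agent.P.MP_d583b7_an
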