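import Pool.Agent.P.MP_d583b7_an.Abstract

/-!
The space `X = ℓ¹ × ℓ^∞` and the operator `S (u, v) = (0, u)`.
-/

set_option autoImplicit false

open Filter Topology
open scoped ENNReal

namespace Pool.Agent.P.MP_d583b7_an

abbrev L1 : Type := lp (fun _ : ℕ => ℂ) 1
abbrev Linf : Type := lp (fun _ : ℕ => ℂ) ∞
abbrev XX : Type := L1 × Linf

/-- The inclusion of `ℓ¹` into `ℓ^∞`. -/
noncomputable def incl : L1 →L[ℂ] Linf :=
  (lp.linearMapOfLE ℂ (fun _ : ℕ => ℂ) (le_top : (1 : ℝ≥0∞) ≤ ∞)).mkContinuous 1 fun u => by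
    rw [one_mul]
    refine lp.norm_le_of_forall_le (norm_nonneg _) fun i => ?_
    exact lp.norm_apply_le_norm one_ne_zero u i

theorem incl_apply (u : L1) (k : ℕ) : incl u k = u k := rfl

/-- The operator `S (u, v) = (0, u)`. -/
noncomputable def SS : XX →L[ℂ] XX :=
  ContinuousLinearMap.inr ℂ L1 Linf ∘L incl ∘L ContinuousLinearMap.fst ℂ L1 Linf

theorem SS_apply (z : XX) : SS z = (0, incl z.1) := rfl

/-- Coordinates of the `ℓ¹` part. -/
noncomputable def coord (k : ℕ) : XX →L[ℂ] ℂ :=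
  lp.evalCLM ℂ (fun _ : ℕ => ℂ) 1 k ∘L ContinuousLinearMap.fst ℂ L1 Linf

theorem coord_apply (k : ℕ) (z : XX) : coord k z = z.1 k := rfl

theorem sum_L1 (u : L1) (s : Finset ℕ) : ∑ k ∈ s, ‖u k‖ ≤ ‖u‖ := by
  have := lp.sum_rpow_le_norm_rpow (p := 1) (by simp) u s
  simpa using this

theorem sum_coord (z : XX) (n : ℕ) : ∑ k ∈ Finset.range n, ‖coord k z‖ ≤ ‖z‖ :=
  le_trans (sum_L1 z.1 _) (norm_fst_le z)

theorem norm_SS_le (z : XX) (b : ℝ) (hb : 0 ≤ b) (h : ∀ k, ‖coord k z‖ ≤ b) : ‖SS z‖ ≤ b := by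
  rw [SS_apply, Prod.norm_mk, norm_zero, max_eq_right (norm_nonneg _)]
  exact lp.norm_le_of_forall_le hb h

/-- The unit vectors of the `ℓ^∞` part. -/
noncomputable def ee (k : ℕ) : XX := (0, lp.single ∞ k (1 : ℂ))

/-- The unit vectors of the `ℓ¹` part. -/
noncomputable def dd (k : ℕ) : XX := (lp.single 1 k (1 : ℂ), 0)

theorem SS_dd (k : ℕ) : SS (dd k) = ee k := by
  rw [SS_apply]
  rfl

theorem norm_dd (k : ℕ) : ‖dd k‖ = 1 := by
  rw [dd, Prod.norm_mk, lp.norm_single (by simp)]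
  simp

/-- Dual coordinates. -/
noncomputable def dcoord (k : ℕ) : StrongDual ℂ XX →L[ℂ] ℂ :=
  ContinuousLinearMap.apply ℂ ℂ (ee k)

theorem dcoord_apply (k : ℕ) (g : StrongDual ℂ XX) : dcoord k g = g (ee k) := rfl

theorem sum_dcoord (g : StrongDual ℂ XX) (n : ℕ) :
    ∑ k ∈ Finset.range n, ‖dcoord k g‖ ≤ ‖g‖ := by
  choose s hs1 hs using fun k => Complex.exists_norm_eq_mul_self (g (ee k))
  let x : XX := ∑ k ∈ Finset.range n, s k • ee k
  have hx : ‖x‖ ≤ 1 := by
    have h1 : x.1 = 0 := by simp [x, Prod.fst_sum, ee]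
    have h2 : ‖x.2‖ ≤ 1 := by
      refine lp.norm_le_of_forall_le zero_le_one fun i => ?_
      have : x.2 i = ∑ k ∈ Finset.range n, s k * (Pi.single k (1 : ℂ) : ℕ → ℂ) i := by
        simp only [x, Prod.snd_sum, ee, Prod.smul_mk, lp.coeFn_sum, Finset.sum_apply]
        rfl
      rw [this]
      by_cases hi : i ∈ Finset.range n
      · rw [Finset.sum_eq_single i]
        · simp [hs1]
        · intro k _ hk
          simp [Ne.symm hk]
        · intro h
          exact absurd hi h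
      · rw [Finset.sum_eq_zero]
        · simp
        · intro k hk
          have : i ≠ k := by
            rintro rfl
            exact hi hk
          simp [this]
    rw [Prod.norm_def, h1, norm_zero]
    exact max_le zero_le_one h2
  have hg : g x = ((∑ k ∈ Finset.range n, ‖dcoord k g‖ : ℝ) : ℂ) := by
    simp only [x, map_sum, map_smul, smul_eq_mul, dcoord_apply]
    push_cast
    exact Finset.sum_congr rfl fun k _ => (hs k).symm
  have h3 : ‖g x‖ ≤ ‖g‖ := by
    refine le_trans (g.le_opNorm x) ?_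
    nlinarith [norm_nonneg g]
  rw [hg, Complex.norm_real] at h3
  exact le_trans (le_abs_self _) h3

theorem norm_comp_SS_le (g : StrongDual ℂ XX) (b : ℝ) (hb : 0 ≤ b) (h : ∀ k, ‖dcoord k g‖ ≤ b) :
    ‖g ∘L SS‖ ≤ b := by
  refine ContinuousLinearMap.opNorm_le_bound _ hb fun z => ?_
  let G : L1 →L[ℂ] ℂ := g ∘L SS ∘L ContinuousLinearMap.inl ℂ L1 Linf
  have e1 : (g ∘L SS) z = G z.1 := rfl
  have hs : HasSum (fun k => G (lp.single 1 k (z.1 k))) (G z.1) :=
    (lp.hasSum_single (by simp) z.1).mapL G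
  have e2 : ∀ k, G (lp.single 1 k (z.1 k)) = z.1 k * g (ee k) := by
    intro k
    have : (lp.single 1 k (z.1 k) : L1) = z.1 k • lp.single 1 k (1 : ℂ) := by
      rw [← lp.single_smul]
      simp
    rw [this, map_smul, smul_eq_mul]
    rfl
  rw [e1]
  have h1 : ∀ s : Finset ℕ, ‖∑ k ∈ s, G (lp.single 1 k (z.1 k))‖ ≤ b * ‖z‖ := by
    intro s
    refine le_trans (norm_sum_le _ _) ?_
    calc ∑ k ∈ s, ‖G (lp.single 1 k (z.1 k))‖ ≤ ∑ k ∈ s, b * ‖z.1 k‖ := by
          refine Finset.sum_le_sum fun k _ => ?_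
          rw [e2, norm_mul, mul_comm]
          exact mul_le_mul_of_nonneg_right (h k) (norm_nonneg _)
      _ = b * ∑ k ∈ s, ‖z.1 k‖ := by rw [Finset.mul_sum]
      _ ≤ b * ‖z‖ := mul_le_mul_of_nonneg_left (le_trans (sum_L1 z.1 s) (norm_fst_le z)) hb
  exact le_of_tendsto' (Tendsto.norm hs) h1

/-- Upper semi-Fredholm operators are stable under adding multiples of `SS`. -/
theorem upper_add (T : XX →L[ℂ] XX) (t : ℂ) (hr : IsClosed (T.range : Set XX))
    (hk : FiniteDimensional ℂ T.ker) :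
    IsClosed ((T + t • SS).range : Set XX) ∧ FiniteDimensional ℂ (T + t • SS).ker := by
  obtain ⟨M, c, hM, hco, hc, hT⟩ := bddBelow_of_upper T hr hk
  obtain ⟨N, c', hc', h⟩ := hump T (t • SS) coord (‖t‖ + 1) (by positivity) sum_coord (by
    intro z b hb hz
    have := norm_SS_le z b hb hz
    rw [smul_apply, norm_smul]
    nlinarith [norm_nonneg t, norm_nonneg (SS z)]) M c hc hT
  let Φ : XX →L[ℂ] (Fin N → ℂ) := ContinuousLinearMap.pi fun k => coord k
  refine upper_of_bddBelow _ (M ⊓ Φ.ker) c' (hM.inter Φ.isClosed_ker)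
    (hco.inf (Submodule.CoFG.ker _)) hc' ?_
  rintro z ⟨hzM, hz⟩
  refine h z hzM fun k hk => ?_
  exact congrFun (show Φ z = 0 from hz) ⟨k, hk⟩

/-- Lower semi-Fredholm operators are stable under adding multiples of `SS`. -/
theorem lower_add (T : XX →L[ℂ] XX) (t : ℂ) (hk : FiniteDimensional ℂ (XX ⧸ T.range)) :
    FiniteDimensional ℂ (XX ⧸ (T + t • SS).range) := by
  obtain ⟨G, c, hG, hc, hT⟩ := adjoint_bddBelow_of_lower T hk
  let adj : (XX →L[ℂ] XX) → (StrongDual ℂ XX →L[ℂ] StrongDual ℂ XX) := fun A =>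
    (ContinuousLinearMap.compL ℂ XX XX ℂ).flip A
  have hadj : ∀ A g, adj A g = g ∘L A := fun _ _ => rfl
  let M : Submodule ℂ (StrongDual ℂ XX) :=
    { carrier := {g | ∀ y ∈ G, g y = 0}
      add_mem' := fun {a b} ha hb y hy => by simp [ha y hy, hb y hy]
      zero_mem' := fun y _ => rfl
      smul_mem' := fun r a ha y hy => by simp [ha y hy] }
  obtain ⟨N, c', hc', h⟩ := hump (adj T) (adj (t • SS)) dcoord (‖t‖ + 1) (by positivity)
    sum_dcoord (by
      intro g b hb hg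
      have := norm_comp_SS_le g b hb hg
      rw [hadj, ContinuousLinearMap.comp_smul, norm_smul]
      nlinarith [norm_nonneg t, norm_nonneg (g ∘L SS)]) M c hc hT
  have hfin : FiniteDimensional ℂ (Submodule.span ℂ (ee '' Set.Iio N)) :=
    FiniteDimensional.span_of_finite ℂ ((Set.finite_Iio N).image _)
  refine lower_of_adjoint_bddBelow _ (G ⊔ Submodule.span ℂ (ee '' Set.Iio N)) c' inferInstance
    hc' fun g hg => ?_
  have := h g (fun y hy => hg y (Submodule.mem_sup_left hy)) fun k hk =>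
    hg _ (Submodule.mem_sup_right (Submodule.subset_span ⟨k, hk, rfl⟩))
  rw [add_apply, hadj, hadj, ← ContinuousLinearMap.comp_add] at this
  exact this

theorem semi_add (T : XX →L[ℂ] XX) (t : ℂ)
    (h : IsClosed (T.range : Set XX) ∧
      (FiniteDimensional ℂ T.ker ∨ FiniteDimensional ℂ (XX ⧸ T.range))) :
    IsClosed ((T + t • SS).range : Set XX) ∧
      (FiniteDimensional ℂ (T + t • SS).ker ∨
        FiniteDimensional ℂ (XX ⧸ (T + t • SS).range)) := by
  obtain ⟨hr, hk | hk⟩ := h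
  · exact ⟨(upper_add T t hr hk).1, Or.inl (upper_add T t hr hk).2⟩
  · exact ⟨isClosed_range_of_cofinite _ (lower_add T t hk), Or.inr (lower_add T t hk)⟩

theorem one_le_dist_ee {i j : ℕ} (hij : i ≠ j) : 1 ≤ dist (ee i) (ee j) := by
  rw [dist_eq_norm]
  refine le_trans ?_ (norm_snd_le _)
  refine le_trans ?_ (lp.norm_apply_le_norm (by simp) _ i)
  have : (ee i - ee j).2 i = (Pi.single i (1 : ℂ) : ℕ → ℂ) i - (Pi.single j (1 : ℂ) : ℕ → ℂ) i :=
    rfl
  rw [this]
  simp [hij]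

/-- An operator sending infinitely many `dd k` to `ee k` is not compact. -/
theorem not_compact_of (A : XX →L[ℂ] XX) (ν : ℕ → ℕ) (hν : Function.Injective ν)
    (h : ∀ k, A (dd (ν k)) = ee (ν k)) : ¬ IsCompactOperator A := by
  intro hA
  obtain ⟨K, hK, hsub⟩ := IsCompactOperator.image_closedBall_subset_compact
    (f := (A : XX →ₗ[ℂ] XX)) hA 1
  have hmem : ∀ k, ee (ν k) ∈ K := fun k =>
    hsub ⟨dd (ν k), by simp [norm_dd], h k⟩
  obtain ⟨a, -, ψ, hψ, hlim⟩ := hK.tendsto_subseq hmem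
  obtain ⟨N, hN⟩ := Metric.cauchySeq_iff.mp hlim.cauchySeq 1 one_pos
  have h1 := hN N le_rfl (N + 1) (Nat.le_succ N)
  have h2 : ν (ψ N) ≠ ν (ψ (N + 1)) := fun hh =>
    (hψ (Nat.lt_succ_self N)).ne (hν hh)
  have h3 := one_le_dist_ee h2
  exact absurd h1 (not_lt.mpr h3)

theorem SS_not_compact : ¬ IsCompactOperator SS :=
  not_compact_of SS id Function.injective_id SS_dd

theorem XX_infinite : ¬ FiniteDimensional ℂ XX := by
  intro h
  have : ProperSpace XX := FiniteDimensional.proper ℂ XX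
  exact SS_not_compact (isCompactOperator_of_locallyCompactSpace_rng SS)

end Pool.Agent.P.MP_d583b7_an
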