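import Pool.Agent.P.MP_d583b7_an.Concrete

/-!
The maps `A ↦ A + f(A) S` on the bounded operators of `ℓ¹ × ℓ^∞`.
-/

set_option autoImplicit false

open Filter Topology
open scoped ENNReal

namespace Pool.Agent.P.MP_d583b7_an

/-- The map `A ↦ A + f(A) S`. -/
noncomputable def shear (f : (XX →L[ℂ] XX) →L[ℂ] ℂ) : (XX →L[ℂ] XX) →L[ℂ] (XX →L[ℂ] XX) :=
  ContinuousLinearMap.id ℂ _ + f.smulRight SS

theorem shear_apply (f : (XX →L[ℂ] XX) →L[ℂ] ℂ) (A : XX →L[ℂ] XX) :
    shear f A = A + f A • SS := rfl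

theorem shear_bijective (f : (XX →L[ℂ] XX) →L[ℂ] ℂ) (hf : f SS = 0) :
    Function.Bijective (shear f) := by
  refine Function.bijective_iff_has_inverse.mpr ⟨fun B => B - f B • SS, fun A => ?_, fun B => ?_⟩
  · simp only [shear_apply, map_add, map_smul, hf, smul_zero, add_zero, add_sub_cancel_right]
  · have e : f (B - f B • SS) = f B := by rw [map_sub, map_smul, hf, smul_zero, sub_zero]
    change shear f (B - f B • SS) = B
    rw [shear_apply, e, sub_add_cancel]

theorem shear_semi (f : (XX →L[ℂ] XX) →L[ℂ] ℂ) (A : XX →L[ℂ] XX) :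
    (IsClosed ((shear f A).range : Set XX) ∧
      (FiniteDimensional ℂ (shear f A).ker ∨ FiniteDimensional ℂ (XX ⧸ (shear f A).range))) ↔
    (IsClosed (A.range : Set XX) ∧
      (FiniteDimensional ℂ A.ker ∨ FiniteDimensional ℂ (XX ⧸ A.range))) := by
  constructor
  · intro h
    have h2 := semi_add (shear f A) (-f A) h
    have e : shear f A + (-f A) • SS = A := by
      rw [shear_apply]
      refine ContinuousLinearMap.ext fun z => ?_
      simp
    rwa [e] at h2
  · intro h
    exact semi_add A (f A) h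

/-- The functional `A ↦ (A d₀)₁`. -/
noncomputable def f01 : (XX →L[ℂ] XX) →L[ℂ] ℂ :=
  coord 1 ∘L ContinuousLinearMap.apply ℂ XX (dd 0)

theorem f01_apply (A : XX →L[ℂ] XX) : f01 A = coord 1 (A (dd 0)) := rfl

theorem coord_dd (i j : ℕ) : coord i (dd j) = if i = j then 1 else 0 := by
  have : coord i (dd j) = (Pi.single j (1 : ℂ) : ℕ → ℂ) i := rfl
  rw [this, Pi.single_apply]

theorem coord_SS (i : ℕ) (z : XX) : coord i (SS z) = 0 := rfl

theorem f01_SS : f01 SS = 0 := rfl

theorem f01_one : f01 1 = 0 := by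
  rw [f01_apply]
  exact (coord_dd 1 0).trans (by simp)

/-- The rank one operator `z ↦ z₀ d₁`. -/
noncomputable def K01 : XX →L[ℂ] XX := (coord 0).smulRight (dd 1)

theorem f01_K01 : f01 K01 = 1 := by
  rw [f01_apply, K01, ContinuousLinearMap.smulRight_apply, map_smul, coord_dd, coord_dd]
  simp

theorem K01_compact : IsCompactOperator K01 := by
  have h1 : IsCompactOperator (coord 0) := isCompactOperator_of_locallyCompactSpace_dom (coord 0)
  have h2 := h1.clm_comp ((ContinuousLinearMap.id ℂ ℂ).smulRight (dd 1))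
  exact h2

theorem shear_K01_not_compact : ¬ IsCompactOperator (shear f01 K01) := by
  intro h
  have h2 := h.sub K01_compact
  apply SS_not_compact
  have e : (⇑(shear f01 K01) - ⇑K01 : XX → XX) = SS := by
    funext z
    simp [shear_apply, f01_K01]
  rwa [e] at h2

/-- The projection onto the even coordinates of the `ℓ¹` part. -/
noncomputable def EE : XX →L[ℂ] XX :=
  ContinuousLinearMap.inl ℂ L1 Linf ∘L
    lp.mapCLM 1 (fun k : ℕ => if Even k then ContinuousLinearMap.id ℂ ℂ else 0) zero_le_one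
      (fun k => by
        split_ifs
        · exact ContinuousLinearMap.norm_id_le
        · simp) ∘L ContinuousLinearMap.fst ℂ L1 Linf

theorem EE_fst (z : XX) (k : ℕ) : (EE z).1 k = if Even k then z.1 k else 0 := by
  have : (EE z).1 k = (if Even k then ContinuousLinearMap.id ℂ ℂ else 0) (z.1 k) := rfl
  rw [this]
  split_ifs <;> rfl

theorem EE_snd (z : XX) : (EE z).2 = 0 := rfl

theorem EE_EE : EE * EE = EE := by
  refine ContinuousLinearMap.ext fun z => ?_
  refine Prod.ext ?_ rfl
  ext k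
  change (EE (EE z)).1 k = (EE z).1 k
  rw [EE_fst, EE_fst]
  split_ifs <;> rfl

theorem EE_SS (z : XX) : EE (SS z) = 0 := by
  refine Prod.ext ?_ rfl
  ext k
  rw [EE_fst]
  split_ifs <;> rfl

theorem SS_SS (z : XX) : SS (SS z) = 0 := by
  rw [SS_apply, SS_apply, map_zero]
  rfl

theorem EE_dd_odd (k : ℕ) : EE (dd (2 * k + 1)) = 0 := by
  refine Prod.ext ?_ rfl
  ext i
  rw [EE_fst]
  split_ifs with h
  · have : (dd (2 * k + 1)).1 i = coord i (dd (2 * k + 1)) := rfl
    rw [this, coord_dd, if_neg]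
    · rfl
    · rintro rfl
      exact (Nat.not_even_iff_odd.mpr ⟨k, rfl⟩) h
  · rfl

/-- The diagonal of a compact operator cannot be a nonzero constant on an infinite set. -/
theorem diag_compact (A : XX →L[ℂ] XX) (hA : IsCompactOperator A) (ν : ℕ → ℕ)
    (hν : StrictMono ν) (c : ℂ) (h : ∀ k, coord (ν k) (A (dd (ν k))) = c) : c = 0 := by
  obtain ⟨K, hK, hsub⟩ := IsCompactOperator.image_closedBall_subset_compact
    (f := (A : XX →ₗ[ℂ] XX)) hA 1
  have hmem : ∀ k, A (dd (ν k)) ∈ K := fun k => hsub ⟨dd (ν k), by simp [norm_dd], rfl⟩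
  obtain ⟨y, -, ψ, hψ, hlim⟩ := hK.tendsto_subseq hmem
  have hcoord : ∀ (z : XX) k, ‖coord k z‖ ≤ ‖z‖ := fun z k =>
    le_trans (lp.norm_apply_le_norm one_ne_zero z.1 k) (norm_fst_le z)
  have h1 : Tendsto (fun k => ‖coord k y‖) atTop (𝓝 0) :=
    (summable_of_sum_range_le (fun _ => norm_nonneg _) (sum_coord y)).tendsto_atTop_zero
  have h2 : Tendsto (fun k => ‖coord (ν (ψ k)) y‖) atTop (𝓝 0) :=
    h1.comp (hν.comp hψ).tendsto_atTop
  have h3 : Tendsto (fun k => ‖A (dd (ν (ψ k))) - y‖) atTop (𝓝 0) :=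
    tendsto_iff_norm_sub_tendsto_zero.mp hlim
  have h4 : Tendsto (fun k => ‖A (dd (ν (ψ k))) - y‖ + ‖coord (ν (ψ k)) y‖) atTop (𝓝 0) := by
    simpa using h3.add h2
  have h5 : ‖c‖ ≤ 0 := by
    refine ge_of_tendsto' h4 fun k => ?_
    have e : c = coord (ν (ψ k)) (A (dd (ν (ψ k))) - y) + coord (ν (ψ k)) y := by
      rw [map_sub, h, sub_add_cancel]
    conv_lhs => rw [e]
    refine le_trans (norm_add_le _ _) ?_
    have := hcoord (A (dd (ν (ψ k))) - y) (ν (ψ k))
    linarith
  exact norm_le_zero_iff.mp h5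

theorem exists_functional_vanishing {F : Type*} [NormedAddCommGroup F] [NormedSpace ℂ F]
    (W : Submodule ℂ F) (hW : IsClosed (W : Set F)) (y : F) (hy : y ∉ W) :
    ∃ g : F →L[ℂ] ℂ, (∀ x ∈ W, g x = 0) ∧ g y = 1 := by
  have hne : W.mkQL y ≠ 0 := fun h => hy ((Submodule.Quotient.mk_eq_zero W).mp h)
  obtain ⟨g, hg⟩ := SeparatingDual.exists_eq_one (R := ℂ) hne
  refine ⟨g ∘L W.mkQL, fun x hx => ?_, hg⟩
  have : W.mkQL x = 0 := (Submodule.Quotient.mk_eq_zero W).mpr hx
  rw [ContinuousLinearMap.comp_apply, this, map_zero]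

/-- A continuous functional vanishing on compact operators, on the identity and on `SS`, and taking
the value one at `EE`. -/
theorem exists_functional : ∃ f : (XX →L[ℂ] XX) →L[ℂ] ℂ,
    (∀ K : XX →L[ℂ] XX, IsCompactOperator K → f K = 0) ∧ f 1 = 0 ∧ f SS = 0 ∧ f EE = 1 := by
  let W : Submodule ℂ (XX →L[ℂ] XX) :=
    compactOperator (RingHom.id ℂ) XX XX ⊔ Submodule.span ℂ {1, SS}
  have hfin : FiniteDimensional ℂ (Submodule.span ℂ ({1, SS} : Set (XX →L[ℂ] XX))) :=
    FiniteDimensional.span_of_finite ℂ (Set.toFinite _)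
  have hW : IsClosed (W : Set (XX →L[ℂ] XX)) :=
    Submodule.isClosed_sup_finiteDimensional _ _ isClosed_setOfPred_isCompactOperator
  have hE : EE ∉ W := by
    intro h
    obtain ⟨K, hK, B, hB, hKB⟩ := Submodule.mem_sup.mp h
    obtain ⟨a, b, rfl⟩ := Submodule.mem_span_pair.mp hB
    have hK' : IsCompactOperator K := hK
    have hKe : K = EE - (a • 1 + b • SS) := by rw [← hKB, add_sub_cancel_right]
    have hd : ∀ k, coord k (K (dd k)) = (if Even k then 1 else 0) - a := by
      intro k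
      have e1 : coord k (EE (dd k)) = if Even k then 1 else 0 := by
        rw [coord_apply, EE_fst, ← coord_apply, coord_dd, if_pos rfl]
      rw [hKe, sub_apply, add_apply, smul_apply, smul_apply, map_sub, map_add, map_smul, map_smul,
        e1, coord_SS, one_apply_eq_self, coord_dd, if_pos rfl]
      simp
    have h1 := diag_compact K hK' (fun k => 2 * k) (fun i j hij => by simp only; omega) (1 - a)
      fun k => by rw [hd, if_pos (even_two_mul k)]
    have h2 := diag_compact K hK' (fun k => 2 * k + 1) (fun i j hij => by simp only; omega) (0 - a)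
      fun k => by rw [hd, if_neg (Nat.not_even_iff_odd.mpr ⟨k, rfl⟩)]
    have : (1 : ℂ) = 0 := by linear_combination h1 - h2
    exact one_ne_zero this
  obtain ⟨g, hz, hg⟩ := exists_functional_vanishing W hW EE hE
  exact ⟨g, fun K hK => hz K (Submodule.mem_sup_left hK),
    hz 1 (Submodule.mem_sup_right (Submodule.subset_span (by simp))),
    hz SS (Submodule.mem_sup_right (Submodule.subset_span (by simp))), hg⟩

theorem not_jordan : ¬ IsCompactOperator ((EE + SS) - (EE + SS) * (EE + SS) : XX →L[ℂ] XX) := by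
  refine not_compact_of _ (fun k => 2 * k + 1) (fun i j hij => by simp only at hij; omega) ?_
  intro k
  simp only [sub_apply, add_apply, mul_apply_eq_comp, EE_dd_odd, zero_add, SS_dd]
  rw [← SS_dd, EE_SS, SS_SS]
  simp

end Pool.Agent.P.MP_d583b7_an
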